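import Pool.Agent.H51.Carpet.Final
import Pool.Agent.H77.Carpet.NoCircle

/-!
# MP_e19c20_an: a compact metric space with a non-trivial natural uniform algebra and without simple closed curves

There is a compact metric space `X` with a non-trivial natural uniform algebra such that the squares are
dense in `C(X)`. Such a space contains no subset homeomorphic to the circle, so it contains no
Sierpiński carpet.
-/

set_option autoImplicit false

open Pool.Agent.H51.Carpet

namespace Pool.Agent.Results.MP_e19c20_an.NaturalAlgebraNoClosedCurve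

/-- `A` is a uniform algebra on `X`: a closed subalgebra of `C(X)` (so it contains the constants) which
separates the points of `X`. -/
def IsUniformAlgebra {X : Type} [MetricSpace X] [CompactSpace X] (A : Subalgebra ℂ C(X, ℂ)) : Prop :=
  IsClosed (A : Set C(X, ℂ)) ∧ ∀ x y : X, x ≠ y → ∃ f ∈ A, f x ≠ f y

/-- `A` is natural: every character (unital multiplicative linear functional) of `A` is the evaluation
at a point of `X`. -/
def IsNatural {X : Type} [MetricSpace X] [CompactSpace X] (A : Subalgebra ℂ C(X, ℂ)) : Prop :=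
  ∀ φ : A →ₐ[ℂ] ℂ, ∃ x : X, ∀ f : A, φ f = (f : C(X, ℂ)) x

/-- The Sierpiński carpet: the points of the unit square which lie in none of the open squares
`((3a+1)/3^(n+1), (3a+2)/3^(n+1)) × ((3b+1)/3^(n+1), (3b+2)/3^(n+1))`. -/
def sierpinskiCarpet : Set (ℝ × ℝ) :=
  {p : ℝ × ℝ | p.1 ∈ Set.Icc (0 : ℝ) 1 ∧ p.2 ∈ Set.Icc (0 : ℝ) 1 ∧
    ∀ n a b : ℕ,
      ¬ (p.1 ∈ Set.Ioo ((3 * (a : ℝ) + 1) / 3 ^ (n + 1)) ((3 * (a : ℝ) + 2) / 3 ^ (n + 1)) ∧
         p.2 ∈ Set.Ioo ((3 * (b : ℝ) + 1) / 3 ^ (n + 1)) ((3 * (b : ℝ) + 2) / 3 ^ (n + 1)))}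

/-- There is a compact metric space which carries a non-trivial natural uniform algebra, on which the
squares are dense in `C(X)`, and which contains no subset homeomorphic to the circle, and no subset
homeomorphic to the Sierpiński carpet. -/
theorem result : ∃ (X : Type) (_ : MetricSpace X) (_ : CompactSpace X),
    (∃ A : Subalgebra ℂ C(X, ℂ), IsUniformAlgebra A ∧ A ≠ ⊤ ∧ IsNatural A) ∧
    (∀ F : C(X, ℂ), ∀ ε : ℝ, 0 < ε → ∃ M : C(X, ℂ), ‖M ^ 2 - F‖ < ε) ∧
    (¬ ∃ K : Set X, Nonempty (↥K ≃ₜ Circle)) ∧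
    ¬ ∃ K : Set X, Nonempty (↥K ≃ₜ ↥sierpinskiCarpet) := by
  let _ : MetricSpace (Lim stage₀) := TopologicalSpace.metrizableSpaceMetric (Lim stage₀)
  refine ⟨Lim stage₀, inferInstance, inferInstance,
    ⟨alg stage₀, ⟨isClosed_alg _, alg_separates stage₀⟩,
      alg_ne_top stage₀ data.dist_pos.choose_spec.1, alg_natural stage₀⟩, ?_, ?_, ?_⟩
  · intro F ε hε
    obtain ⟨M, hM⟩ := dense_squares stage₀ F hε
    exact ⟨M, by rwa [pow_two]⟩
  · exact Pool.Agent.H77.Carpet.no_circle fun F ε hε => dense_squares stage₀ F hε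
  · exact no_carpet fun F ε hε => dense_squares stage₀ F hε

end Pool.Agent.Results.MP_e19c20_an.NaturalAlgebraNoClosedCurve
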